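import Pool.Agent.Q95.BD.T2a

/-!
# Project BD, job B4b: the norm of a combination of test functions
-/

set_option autoImplicit false

namespace Pool.Agent.Q95.BD

open Complex MeasureTheory Filter Topology Set
open Pool.Agent.Q286.BD

theorem hcut_nonneg (δ v : ℝ) : 0 ≤ hcut δ v := by
  unfold hcut
  linarith [Real.smoothTransition.le_one ((v - 1 - δ) / δ)]

theorem hcut_le (δ v : ℝ) : hcut δ v ≤ 1 := by
  unfold hcut
  linarith [Real.smoothTransition.nonneg ((v - 1 - δ) / δ)]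

theorem hcut_zero {δ v : ℝ} (hδ : 0 < δ) (hv : 1 + 2 * δ ≤ v) : hcut δ v = 0 := by
  unfold hcut
  rw [Real.smoothTransition.one_of_one_le, sub_self]
  rw [le_div_iff₀ hδ]
  linarith

theorem hcut_cont (δ : ℝ) : Continuous (hcut δ) := by
  unfold hcut
  exact continuous_const.sub (Real.smoothTransition.continuous.comp (by fun_prop))

theorem bump_bdd {b : ℝ → ℝ} (hb : Bump b) : ∃ B : ℝ, 0 ≤ B ∧ ∀ y, b y ≤ B := by
  have hc : Continuous b := (hb.smooth 0).continuous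
  obtain ⟨B, hB⟩ := (isCompact_Icc (a := (1 : ℝ)) (b := 2)).bddAbove_image hc.continuousOn
  refine ⟨max B 0, le_max_right _ _, fun y => ?_⟩
  by_cases h : b y = 0
  · rw [h]; exact le_max_right _ _
  · exact (hB ⟨y, hb.supp y h, rfl⟩).trans (le_max_left _ _)

theorem measurable_KK {b : ℝ → ℝ} (hb : Bump b) (g : ℝ) (p : Polynomial ℝ) (δ L : ℝ) (κ c : ℂ) :
    Measurable (KK b g p δ L κ c) := by
  have hc : Continuous b := (hb.smooth 0).continuous
  unfold KK
  refine Measurable.ite measurableSet_Iic measurable_const ?_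
  refine Measurable.ite measurableSet_Iio (by fun_prop) ?_
  have h1 : Measurable fun y : ℝ => (y : ℂ) ^ (-cl g - 1) :=
    Complex.measurable_ofReal.pow_const _
  have h2 : Measurable fun y : ℝ => ((p.eval (Real.log y / ((1 + 2 * δ) * L)) : ℝ) : ℂ) :=
    Complex.measurable_ofReal.comp (p.continuous.measurable.comp (by fun_prop))
  have h3 : Measurable fun y : ℝ => ((hcut δ (Real.log y / L) : ℝ) : ℂ) :=
    Complex.measurable_ofReal.comp ((hcut_cont δ).measurable.comp (by fun_prop))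
  have h4 : Measurable fun y : ℝ => ((b (y * Real.exp (-((1 + δ) * L))) : ℝ) : ℂ) :=
    Complex.measurable_ofReal.comp (hc.measurable.comp (by fun_prop))
  exact ((h1.mul h2).mul h3).add (h4.const_mul _)

theorem sq_add_le {θ : ℝ} (hθ : 0 < θ) (a e : ℂ) :
    ‖a + e‖ ^ 2 ≤ (1 + θ) * ‖a‖ ^ 2 + (1 + 1 / θ) * ‖e‖ ^ 2 := by
  have h1 : ‖a + e‖ ^ 2 ≤ (‖a‖ + ‖e‖) ^ 2 := pow_le_pow_left₀ (norm_nonneg _) (norm_add_le a e) 2
  refine h1.trans ?_
  have h2 : (1 + θ) * ‖a‖ ^ 2 + (1 + 1 / θ) * ‖e‖ ^ 2 - (‖a‖ + ‖e‖) ^ 2 =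
      (θ * ‖a‖ - ‖e‖) ^ 2 / θ := by
    field_simp
    ring
  have h3 : 0 ≤ (θ * ‖a‖ - ‖e‖) ^ 2 / θ := by positivity
  linarith

theorem cpow_eq (g : ℝ) {y : ℝ} (hy : 0 < y) : (y : ℂ) ^ (-cl g - 1) =
    ((Real.exp (-(3 / 2) * Real.log y) : ℝ) : ℂ) * cexp (-(g * Real.log y * I)) := by
  have hy0 : (y : ℂ) ≠ 0 := by exact_mod_cast hy.ne'
  rw [Complex.cpow_def_of_ne_zero hy0, ← Complex.ofReal_log hy.le, Complex.ofReal_exp,
    ← Complex.exp_add]
  congr 1
  unfold cl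
  push_cast
  ring

theorem r_sq {y : ℝ} (hy : 0 < y) : (Real.exp (-(3 / 2) * Real.log y)) ^ 2 * y ^ 2 = y⁻¹ := by
  have h1 : (Real.exp (-(3 / 2) * Real.log y)) ^ 2 = y⁻¹ ^ 3 := by
    rw [← Real.exp_nat_mul]
    have h2 : ((2 : ℕ) : ℝ) * (-(3 / 2) * Real.log y) = (3 : ℕ) * Real.log y⁻¹ := by
      rw [Real.log_inv]; push_cast; ring
    rw [h2, Real.exp_nat_mul, Real.exp_log (inv_pos.2 hy)]
  rw [h1]
  field_simp

/-- the bound for `y < 1` -/
theorem pw1 {b : ℝ → ℝ} {S : Finset ℝ} {p : ℝ → Polynomial ℝ} {w κ c : ℝ → ℂ} {δ L C0 : ℝ}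
    (hκ : ∀ g ∈ S, ‖κ g‖ ≤ C0) {y : ℝ} (hy : 0 < y) (hy1 : y < 1) :
    ‖∑ g ∈ S, w g * KK b g (p g) δ L (κ g) (c g) y‖ ^ 2 * y ^ 2 ≤
      ((∑ g ∈ S, ‖w g‖) * C0) ^ 2 := by
  have h1 : ‖∑ g ∈ S, w g * KK b g (p g) δ L (κ g) (c g) y‖ * y ≤ (∑ g ∈ S, ‖w g‖) * C0 := by
    have h2 : ‖∑ g ∈ S, w g * KK b g (p g) δ L (κ g) (c g) y‖ ≤ ∑ g ∈ S, ‖w g‖ * (C0 / y) := by
      refine (norm_sum_le _ _).trans (Finset.sum_le_sum fun g hg => ?_)
      rw [norm_mul]
      refine mul_le_mul_of_nonneg_left ?_ (norm_nonneg _)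
      unfold KK
      rw [if_neg (not_le.2 hy), if_pos hy1, norm_div, Complex.norm_real, Real.norm_eq_abs,
        abs_of_pos hy]
      exact div_le_div_of_nonneg_right (hκ g hg) hy.le
    rw [← Finset.sum_mul] at h2
    have h3 := mul_le_mul_of_nonneg_right h2 hy.le
    refine h3.trans (le_of_eq ?_)
    field_simp
  rw [← mul_pow]
  exact pow_le_pow_left₀ (by positivity) h1 2

/-- the bound for `y ≥ 1` -/
theorem pw2 {b : ℝ → ℝ} (hb : Bump b) {B : ℝ} (hB : ∀ y, b y ≤ B) {S : Finset ℝ}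
    {p : ℝ → Polynomial ℝ} {w κ c : ℝ → ℂ} {δ L C0 θ : ℝ} (hδ : 0 < δ) (hL : 0 < L)
    (_hC0 : 0 < C0) (hθ : 0 < θ)
    (hc : ∀ g ∈ S, ‖c g‖ ≤ C0 * Real.exp (-((1 + δ) * L / 2))) {y : ℝ} (hy : 1 ≤ y) :
    ‖∑ g ∈ S, w g * KK b g (p g) δ L (κ g) (c g) y‖ ^ 2 * y ^ 2 ≤
      (Icc 1 (Real.exp ((1 + 2 * δ) * L))).indicator
        (fun y => (1 + θ) * (GF S p w ((1 + 2 * δ) * L) (Real.log y) * y⁻¹)) y +
      (Icc (Real.exp ((1 + δ) * L)) (2 * Real.exp ((1 + δ) * L))).indicator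
        (fun _ => (1 + 1 / θ) * (4 * ((∑ g ∈ S, ‖w g‖) * C0 * B) ^ 2 *
          Real.exp (-((1 + δ) * L)))) y := by
  have hy0 : 0 < y := by linarith
  set X := (1 + δ) * L with hX
  set Y := (1 + 2 * δ) * L with hY
  set r := Real.exp (-(3 / 2) * Real.log y) with hr
  set h := hcut δ (Real.log y / L) with hh
  set F0 : ℂ := ∑ g ∈ S, w g * (cexp (-(g * Real.log y * I)) *
    (((p g).eval (Real.log y / Y) : ℝ) : ℂ)) with hF0
  set E0 : ℂ := ∑ g ∈ S, w g * c g with hE0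
  set β := Real.exp (-X) * b (y * Real.exp (-X)) with hβ
  have hsum : ∑ g ∈ S, w g * KK b g (p g) δ L (κ g) (c g) y =
      ((r * h : ℝ) : ℂ) * F0 + ((β : ℝ) : ℂ) * E0 := by
    rw [hF0, hE0, Finset.mul_sum, Finset.mul_sum, ← Finset.sum_add_distrib]
    refine Finset.sum_congr rfl fun g _ => ?_
    unfold KK
    rw [if_neg (not_le.2 hy0), if_neg (not_lt.2 hy), cpow_eq g hy0, ← hr, ← hh, ← hX, ← hY, hβ]
    push_cast
    ring
  rw [hsum]
  have h1 := mul_le_mul_of_nonneg_right (sq_add_le hθ (((r * h : ℝ) : ℂ) * F0)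
    (((β : ℝ) : ℂ) * E0)) (sq_nonneg y)
  refine h1.trans ?_
  rw [add_mul]
  refine add_le_add ?_ ?_
  · -- main term
    have h2 : (1 + θ) * ‖((r * h : ℝ) : ℂ) * F0‖ ^ 2 * y ^ 2 =
        h ^ 2 * ((1 + θ) * (GF S p w Y (Real.log y) * y⁻¹)) := by
      rw [norm_mul, Complex.norm_real, Real.norm_eq_abs, mul_pow, sq_abs, mul_pow]
      have h3 : GF S p w Y (Real.log y) = ‖F0‖ ^ 2 := rfl
      rw [h3]
      calc (1 + θ) * (r ^ 2 * h ^ 2 * ‖F0‖ ^ 2) * y ^ 2 =
          h ^ 2 * ((1 + θ) * (‖F0‖ ^ 2 * (r ^ 2 * y ^ 2))) := by ring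
        _ = _ := by rw [hr, r_sq hy0]
    rw [h2]
    have hGF : 0 ≤ GF S p w Y (Real.log y) := by unfold GF; positivity
    have h4 : 0 ≤ (1 + θ) * (GF S p w Y (Real.log y) * y⁻¹) := by positivity
    by_cases hyY : y ≤ Real.exp Y
    · rw [indicator_of_mem (show y ∈ Icc 1 (Real.exp Y) from ⟨hy, hyY⟩)]
      have h5 : h ^ 2 ≤ 1 := pow_le_one₀ (hcut_nonneg _ _) (hcut_le _ _)
      exact mul_le_of_le_one_left h4 h5
    · rw [indicator_of_notMem (fun h6 => hyY h6.2)]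
      push Not at hyY
      have h5 : h = 0 := by
        rw [hh]
        refine hcut_zero hδ ?_
        rw [le_div_iff₀ hL, ← hY]
        rw [Real.le_log_iff_exp_le hy0]
        exact hyY.le
      rw [h5]
      simp
  · -- the bump
    have hEn : ‖E0‖ ≤ (∑ g ∈ S, ‖w g‖) * (C0 * Real.exp (-(X / 2))) := by
      rw [hE0, Finset.sum_mul]
      refine (norm_sum_le _ _).trans (Finset.sum_le_sum fun g hg => ?_)
      rw [norm_mul]
      exact mul_le_mul_of_nonneg_left (hc g hg) (norm_nonneg _)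
    by_cases hyX : b (y * Real.exp (-X)) = 0
    · have h2 : β = 0 := by rw [hβ, hyX, mul_zero]
      rw [h2, Complex.ofReal_zero, zero_mul, norm_zero]
      have h3 : 0 ≤ (1 + 1 / θ) * (4 * ((∑ g ∈ S, ‖w g‖) * C0 * B) ^ 2 * Real.exp (-X)) := by
        positivity
      have h4 : (0 : ℝ) ≤ (Icc (Real.exp X) (2 * Real.exp X)).indicator
        (fun _ => (1 + 1 / θ) * (4 * ((∑ g ∈ S, ‖w g‖) * C0 * B) ^ 2 * Real.exp (-X))) y :=
        indicator_nonneg (fun _ _ => h3) y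
      simpa using h4
    · obtain ⟨h5, h6⟩ := hb.supp _ hyX
      have hXe : Real.exp X * Real.exp (-X) = 1 := by
        rw [← Real.exp_add, add_neg_cancel, Real.exp_zero]
      have hXp := Real.exp_pos X
      have hXn := Real.exp_pos (-X)
      have h7 : Real.exp X ≤ y := by
        have := mul_le_mul_of_nonneg_left h5 hXp.le
        calc Real.exp X = Real.exp X * 1 := (mul_one _).symm
          _ ≤ Real.exp X * (y * Real.exp (-X)) := this
          _ = y * (Real.exp X * Real.exp (-X)) := by ring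
          _ = y := by rw [hXe, mul_one]
      have h8 : y ≤ 2 * Real.exp X := by
        have := mul_le_mul_of_nonneg_left h6 hXp.le
        calc y = y * (Real.exp X * Real.exp (-X)) := by rw [hXe, mul_one]
          _ = Real.exp X * (y * Real.exp (-X)) := by ring
          _ ≤ Real.exp X * 2 := this
          _ = _ := by ring
      rw [indicator_of_mem (show y ∈ Icc (Real.exp X) (2 * Real.exp X) from ⟨h7, h8⟩), mul_assoc]
      refine mul_le_mul_of_nonneg_left ?_ (by positivity)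
      have hb0 := hb.nonneg (y * Real.exp (-X))
      have hbB := hB (y * Real.exp (-X))
      have hβ0 : 0 ≤ β := by rw [hβ]; positivity
      have hβ1 : β ≤ Real.exp (-X) * B := mul_le_mul_of_nonneg_left hbB hXn.le
      rw [norm_mul, Complex.norm_real, Real.norm_eq_abs, abs_of_nonneg hβ0, ← mul_pow]
      have h9 : β * ‖E0‖ * y ≤ (Real.exp (-X) * B) *
          ((∑ g ∈ S, ‖w g‖) * (C0 * Real.exp (-(X / 2)))) * (2 * Real.exp X) :=
        mul_le_mul (mul_le_mul hβ1 hEn (norm_nonneg _) (hβ0.trans hβ1)) h8 hy0.le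
          (mul_nonneg (hβ0.trans hβ1) ((norm_nonneg _).trans hEn))
      have h10 : (Real.exp (-X) * B) * ((∑ g ∈ S, ‖w g‖) * (C0 * Real.exp (-(X / 2)))) *
          (2 * Real.exp X) = 2 * ((∑ g ∈ S, ‖w g‖) * C0 * B) * Real.exp (-(X / 2)) := by
        calc _ = 2 * ((∑ g ∈ S, ‖w g‖) * C0 * B) * Real.exp (-(X / 2)) *
              (Real.exp X * Real.exp (-X)) := by ring
          _ = _ := by rw [hXe, mul_one]
      rw [h10] at h9
      have h11 := pow_le_pow_left₀ (by positivity) h9 2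
      refine h11.trans (le_of_eq ?_)
      rw [mul_pow, mul_pow, ← Real.exp_nat_mul]
      have h12 : ((2 : ℕ) : ℝ) * -(X / 2) = -X := by push_cast; ring
      rw [h12]
      ring

theorem t2 : S_T2 := by
  intro b hb S p w δ C0 η hδ hδ4 hC0 hη
  obtain ⟨B, hB0, hB⟩ := bump_bdd hb
  set W : ℝ := ∑ g ∈ S, ‖w g‖ with hW
  have hW0 : 0 ≤ W := Finset.sum_nonneg fun g _ => norm_nonneg _
  set D : ℝ := ∑ g ∈ S, ‖w g‖ ^ 2 * (∫ u in (0 : ℝ)..1, (p g).eval u ^ 2) with hD
  have hD0 : 0 ≤ D := Finset.sum_nonneg fun g _ => mul_nonneg (sq_nonneg _)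
    (intervalIntegral.integral_nonneg zero_le_one fun u _ => sq_nonneg _)
  set θ : ℝ := η / (4 * ((1 + 2 * δ) * (D + 1))) with hθ
  have hθ0 : 0 < θ := by positivity
  set K : ℝ := (W * C0) ^ 2 + (1 + 1 / θ) * (4 * (W * C0 * B) ^ 2) with hK
  have hYt : Tendsto (fun L : ℝ => (1 + 2 * δ) * L) atTop atTop :=
    tendsto_id.const_mul_atTop (by positivity)
  have hG : Tendsto (fun L : ℝ => (1 + θ) * ((1 + 2 * δ) * G1 S p w ((1 + 2 * δ) * L))) atTop
      (𝓝 ((1 + θ) * ((1 + 2 * δ) * D))) :=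
    (((G1_tendsto S p w).comp hYt).const_mul _).const_mul _
  have hlt : (1 + θ) * ((1 + 2 * δ) * D) < (1 + 2 * δ) * D + η / 2 := by
    have h1 : θ * ((1 + 2 * δ) * (D + 1)) = η / 4 := by
      rw [hθ]; field_simp
    have h2 : θ * ((1 + 2 * δ) * D) ≤ θ * ((1 + 2 * δ) * (D + 1)) :=
      mul_le_mul_of_nonneg_left (mul_le_mul_of_nonneg_left (by linarith) (by positivity)) hθ0.le
    nlinarith
  have hev2 : ∀ᶠ L : ℝ in atTop, K ≤ L * (η / 2) :=
    (tendsto_id.atTop_mul_const (show (0 : ℝ) < η / 2 by positivity)).eventually_ge_atTop K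
  filter_upwards [hG.eventually_lt_const hlt, hev2, eventually_gt_atTop (0 : ℝ)] with L h1 h2 hL
  intro κ c hκc
  set f : ℝ → ℝ := fun y => ‖∑ g ∈ S, w g * KK b g (p g) δ L (κ g) (c g) y‖ ^ 2 * y ^ 2 with hf
  set X : ℝ := (1 + δ) * L with hX
  set Y : ℝ := (1 + 2 * δ) * L with hY
  have hY0 : 0 < Y := by positivity
  set φ1 : ℝ → ℝ := (Ioo (0 : ℝ) 1).indicator (fun _ => (W * C0) ^ 2) with hφ1
  set φ2 : ℝ → ℝ := (Icc 1 (Real.exp Y)).indicator
    (fun y => (1 + θ) * (GF S p w Y (Real.log y) * y⁻¹)) with hφ2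
  set φ3 : ℝ → ℝ := (Icc (Real.exp X) (2 * Real.exp X)).indicator
    (fun _ => (1 + 1 / θ) * (4 * (W * C0 * B) ^ 2 * Real.exp (-X))) with hφ3
  have i1 : Integrable φ1 := by
    rw [hφ1, integrable_indicator_iff measurableSet_Ioo]
    exact integrableOn_const (by simp)
  have i2 : Integrable φ2 := by
    rw [hφ2, integrable_indicator_iff measurableSet_Icc]
    refine ContinuousOn.integrableOn_Icc ?_
    refine continuousOn_const.mul (ContinuousOn.mul ?_ ?_)
    · refine (GF_cont S p w Y).comp_continuousOn (Real.continuousOn_log.mono fun y hy => ?_)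
      have : 0 < y := by linarith [hy.1]
      simpa using this.ne'
    · refine continuousOn_inv₀.mono fun y hy => ?_
      have : 0 < y := by linarith [hy.1]
      simpa using this.ne'
  have i3 : Integrable φ3 := by
    rw [hφ3, integrable_indicator_iff measurableSet_Icc]
    exact integrableOn_const (by simp)
  have n1 : ∀ y, 0 ≤ φ1 y := fun y => indicator_nonneg (fun _ _ => sq_nonneg _) y
  have n2 : ∀ y, 0 ≤ φ2 y := fun y => indicator_nonneg (fun y hy => by
    have hy0 : 0 < y := by linarith [hy.1]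
    have : 0 ≤ GF S p w Y (Real.log y) := by unfold GF; positivity
    positivity) y
  have n3 : ∀ y, 0 ≤ φ3 y := fun y => indicator_nonneg (fun _ _ => by positivity) y
  have hle : ∀ y ∈ Ioi (0 : ℝ), f y ≤ φ1 y + φ2 y + φ3 y := by
    intro y hy
    rw [mem_Ioi] at hy
    rcases lt_or_ge y 1 with hy1 | hy1
    · have h3 : f y ≤ φ1 y := by
        rw [hφ1, indicator_of_mem (show y ∈ Ioo (0 : ℝ) 1 from ⟨hy, hy1⟩)]
        exact pw1 (fun g hg => (hκc g hg).1) hy hy1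
      linarith [n2 y, n3 y]
    · have h3 : f y ≤ φ2 y + φ3 y :=
        pw2 hb hB hδ hL hC0 hθ0 (fun g hg => (hκc g hg).2) hy1
      linarith [n1 y]
  have hmeas : Measurable f := by
    refine Measurable.mul ?_ (by fun_prop)
    refine Measurable.pow_const (Measurable.norm ?_) 2
    exact Finset.measurable_fun_sum _ fun g _ => (measurable_KK hb g (p g) δ L (κ g) (c g)).const_mul _
  have hfn : ∀ y, 0 ≤ f y := fun y => by simp only [hf]; positivity
  have hΦ : Integrable (fun y => φ1 y + φ2 y + φ3 y) := (i1.add i2).add i3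
  have hint : IntegrableOn f (Ioi 0) := by
    refine Integrable.mono' hΦ.integrableOn hmeas.aestronglyMeasurable ?_
    refine (ae_restrict_mem measurableSet_Ioi).mono fun y hy => ?_
    rw [Real.norm_eq_abs, abs_of_nonneg (hfn y)]
    exact hle y hy
  refine ⟨hint, ?_⟩
  have e1 : ∫ y, φ1 y = (W * C0) ^ 2 := by
    rw [hφ1, integral_indicator measurableSet_Ioo, setIntegral_const, smul_eq_mul]
    simp
  have e2 : ∫ y, φ2 y = (1 + θ) * (Y * G1 S p w Y) := by
    rw [hφ2, integral_indicator measurableSet_Icc, integral_Icc_eq_integral_Ioc,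
      ← intervalIntegral.integral_of_le (Real.one_le_exp hY0.le),
      intervalIntegral.integral_const_mul, GF_int S p w hY0]
  have e3 : ∫ y, φ3 y = (1 + 1 / θ) * (4 * (W * C0 * B) ^ 2) := by
    rw [hφ3, integral_indicator measurableSet_Icc, setIntegral_const, smul_eq_mul]
    have hXe : Real.exp X * Real.exp (-X) = 1 := by
      rw [← Real.exp_add, add_neg_cancel, Real.exp_zero]
    have h3 : volume.real (Icc (Real.exp X) (2 * Real.exp X)) = Real.exp X := by
      rw [Real.volume_real_Icc_of_le (by linarith [Real.exp_pos X])]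
      ring
    rw [h3]
    calc _ = (1 + 1 / θ) * (4 * (W * C0 * B) ^ 2) * (Real.exp X * Real.exp (-X)) := by ring
      _ = _ := by rw [hXe, mul_one]
  calc ∫ y in Ioi (0 : ℝ), f y ≤ ∫ y in Ioi (0 : ℝ), (φ1 y + φ2 y + φ3 y) :=
        setIntegral_mono_on hint hΦ.integrableOn measurableSet_Ioi hle
    _ ≤ ∫ y, (φ1 y + φ2 y + φ3 y) := by
        refine setIntegral_le_integral hΦ (Eventually.of_forall fun y => ?_)
        have := n1 y
        have := n2 y
        have := n3 y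
        show (0 : ℝ) ≤ φ1 y + φ2 y + φ3 y
        linarith
    _ = (W * C0) ^ 2 + (1 + θ) * (Y * G1 S p w Y) + (1 + 1 / θ) * (4 * (W * C0 * B) ^ 2) := by
        have e4 : ∫ y, (φ1 y + φ2 y + φ3 y) = (∫ y, (φ1 y + φ2 y)) + ∫ y, φ3 y :=
          integral_add (i1.add i2) i3
        have e5 : ∫ y, (φ1 y + φ2 y) = (∫ y, φ1 y) + ∫ y, φ2 y := integral_add i1 i2
        rw [e4, e5, e1, e2, e3]
    _ = L * ((1 + θ) * ((1 + 2 * δ) * G1 S p w Y)) + K := by
        rw [hK, hY]; ring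
    _ ≤ L * ((1 + 2 * δ) * D + η / 2) + L * (η / 2) :=
        add_le_add (mul_le_mul_of_nonneg_left h1.le hL.le) h2
    _ = _ := by ring

end Pool.Agent.Q95.BD
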