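import Pool.Agent.Q286.BD.Spec

/-!
# Project BD, job B4b: exponential sums, Riemann-Lebesgue
-/

set_option autoImplicit false

namespace Pool.Agent.Q95.BD

open Complex MeasureTheory Filter Topology Set
open Pool.Agent.Q286.BD

theorem rl (c : ℝ) (hc : c ≠ 0) (f : ℝ → ℝ) :
    Tendsto (fun Y : ℝ => ∫ u in (0 : ℝ)..1, cexp (-(c * (Y * u) * I)) * ((f u : ℝ) : ℂ)) atTop
      (𝓝 0) := by
  have h1 := Real.tendsto_integral_exp_smul_cocompact
    ((Ioc (0 : ℝ) 1).indicator fun u => ((f u : ℝ) : ℂ))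
  have h2 : Tendsto (fun Y : ℝ => c / (2 * Real.pi) * Y) atTop (cocompact ℝ) := by
    rw [← Metric.cobounded_eq_cocompact, ← tendsto_norm_atTop_iff_cobounded]
    have h3 : ∀ Y : ℝ, ‖c / (2 * Real.pi) * Y‖ = |c / (2 * Real.pi)| * |Y| := fun Y => by
      rw [Real.norm_eq_abs, abs_mul]
    simp only [h3]
    refine Tendsto.const_mul_atTop ?_ tendsto_abs_atTop_atTop
    have := Real.pi_pos
    positivity
  have h3 := h1.comp h2
  refine h3.congr fun Y => ?_
  show ∫ v : ℝ, Real.fourierChar (-(v * (c / (2 * Real.pi) * Y))) •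
    ((Ioc (0 : ℝ) 1).indicator fun u => ((f u : ℝ) : ℂ)) v = _
  rw [intervalIntegral.integral_of_le zero_le_one, ← integral_indicator measurableSet_Ioc]
  refine integral_congr_ae (Eventually.of_forall fun v => ?_)
  simp only
  by_cases hv : v ∈ Ioc (0 : ℝ) 1
  · rw [indicator_of_mem hv, indicator_of_mem hv, Circle.smul_def, Real.fourierChar_apply,
      smul_eq_mul]
    congr 2
    have : (Real.pi : ℂ) ≠ 0 := by exact_mod_cast Real.pi_ne_zero
    push_cast
    field_simp
  · rw [indicator_of_notMem hv, indicator_of_notMem hv, smul_zero]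

/-- the mean of the exponential sum -/
noncomputable def G1 (S : Finset ℝ) (p : ℝ → Polynomial ℝ) (w : ℝ → ℂ) (Y : ℝ) : ℝ :=
  ∫ u in (0 : ℝ)..1, ‖∑ g ∈ S, w g * (cexp (-(g * (Y * u) * I)) * (((p g).eval u : ℝ) : ℂ))‖ ^ 2

theorem G1_tendsto (S : Finset ℝ) (p : ℝ → Polynomial ℝ) (w : ℝ → ℂ) :
    Tendsto (G1 S p w) atTop
      (𝓝 (∑ g ∈ S, ‖w g‖ ^ 2 * (∫ u in (0 : ℝ)..1, (p g).eval u ^ 2))) := by
  have key : ∀ g g' : ℝ, Tendsto (fun Y : ℝ => ∫ u in (0 : ℝ)..1,
      (w g * (starRingEnd ℂ) (w g')) * (cexp (-((g - g' : ℝ) * (Y * u) * I)) *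
        (((p g).eval u * (p g').eval u : ℝ) : ℂ))) atTop
      (𝓝 (if g = g' then ((‖w g‖ ^ 2 * (∫ u in (0 : ℝ)..1, (p g).eval u ^ 2) : ℝ) : ℂ) else 0)) := by
    intro g g'
    split_ifs with h
    · subst h
      have h1 : ∀ Y : ℝ, ∫ u in (0 : ℝ)..1,
          (w g * (starRingEnd ℂ) (w g)) * (cexp (-((g - g : ℝ) * (Y * u) * I)) *
            (((p g).eval u * (p g).eval u : ℝ) : ℂ)) =
          ((‖w g‖ ^ 2 * (∫ u in (0 : ℝ)..1, (p g).eval u ^ 2) : ℝ) : ℂ) := by
        intro Y
        rw [intervalIntegral.integral_const_mul, Complex.mul_conj, Complex.normSq_eq_norm_sq]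
        push_cast
        rw [← intervalIntegral.integral_ofReal]
        congr 1
        refine intervalIntegral.integral_congr fun u _ => ?_
        simp [sq]
      simp only [h1]
      exact tendsto_const_nhds
    · have h1 := (rl (g - g') (sub_ne_zero.2 h) (fun u => (p g).eval u * (p g').eval u)).const_mul
        (w g * (starRingEnd ℂ) (w g'))
      rw [mul_zero] at h1
      refine h1.congr fun Y => ?_
      rw [intervalIntegral.integral_const_mul]
  have hsum : Tendsto (fun Y : ℝ => ∑ g ∈ S, ∑ g' ∈ S, ∫ u in (0 : ℝ)..1,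
      (w g * (starRingEnd ℂ) (w g')) * (cexp (-((g - g' : ℝ) * (Y * u) * I)) *
        (((p g).eval u * (p g').eval u : ℝ) : ℂ))) atTop
      (𝓝 (∑ g ∈ S, ∑ g' ∈ S, if g = g' then
        ((‖w g‖ ^ 2 * (∫ u in (0 : ℝ)..1, (p g).eval u ^ 2) : ℝ) : ℂ) else 0)) :=
    tendsto_finsetSum _ fun g _ => tendsto_finsetSum _ fun g' _ => key g g'
  have h2 : ∀ Y : ℝ, ∑ g ∈ S, ∑ g' ∈ S, ∫ u in (0 : ℝ)..1,
      (w g * (starRingEnd ℂ) (w g')) * (cexp (-((g - g' : ℝ) * (Y * u) * I)) *
        (((p g).eval u * (p g').eval u : ℝ) : ℂ)) = ((G1 S p w Y : ℝ) : ℂ) := by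
    intro Y
    have hcont : ∀ g g' : ℝ, Continuous fun u : ℝ => (w g * (starRingEnd ℂ) (w g')) *
        (cexp (-((g - g' : ℝ) * (Y * u) * I)) * (((p g).eval u * (p g').eval u : ℝ) : ℂ)) := by
      intro g g'
      fun_prop
    unfold G1
    rw [← intervalIntegral.integral_ofReal]
    rw [Finset.sum_congr rfl fun g _ => (intervalIntegral.integral_finsetSum
      (fun g' _ => (hcont g g').intervalIntegrable 0 1)).symm]
    rw [← intervalIntegral.integral_finsetSum]
    · refine intervalIntegral.integral_congr fun u _ => ?_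
      rw [← Complex.normSq_eq_norm_sq, ← Complex.mul_conj, map_sum, Finset.sum_mul_sum]
      refine Finset.sum_congr rfl fun g _ => Finset.sum_congr rfl fun g' _ => ?_
      rw [map_mul, map_mul, Complex.conj_ofReal, ← Complex.exp_conj]
      have h3 : cexp (-((g - g' : ℝ) * (Y * u) * I)) =
          cexp (-(g * (Y * u) * I)) * cexp ((starRingEnd ℂ) (-(g' * (Y * u) * I))) := by
        rw [← Complex.exp_add]
        congr 1
        simp only [map_neg, map_mul, Complex.conj_ofReal, Complex.conj_I]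
        push_cast
        ring
      rw [h3]
      push_cast
      ring
    · intro g _
      exact (continuous_finsetSum _ fun g' _ => hcont g g').intervalIntegrable 0 1
  simp only [h2] at hsum
  have h3 := (Complex.continuous_re.tendsto _).comp hsum
  refine (h3.congr fun Y => ?_).trans (le_of_eq ?_)
  · simp
  · congr 1
    rw [Complex.re_sum]
    refine Finset.sum_congr rfl fun g hg => ?_
    rw [Finset.sum_ite_eq, if_pos hg, Complex.ofReal_re]

theorem G1_nonneg (S : Finset ℝ) (p : ℝ → Polynomial ℝ) (w : ℝ → ℂ) (Y : ℝ) : 0 ≤ G1 S p w Y :=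
  intervalIntegral.integral_nonneg zero_le_one fun u _ => by positivity

/-- the function of the logarithm -/
noncomputable def GF (S : Finset ℝ) (p : ℝ → Polynomial ℝ) (w : ℝ → ℂ) (Y v : ℝ) : ℝ :=
  ‖∑ g ∈ S, w g * (cexp (-(g * v * I)) * (((p g).eval (v / Y) : ℝ) : ℂ))‖ ^ 2

theorem GF_cont (S : Finset ℝ) (p : ℝ → Polynomial ℝ) (w : ℝ → ℂ) (Y : ℝ) :
    Continuous (GF S p w Y) := by
  unfold GF
  fun_prop

theorem GF_int (S : Finset ℝ) (p : ℝ → Polynomial ℝ) (w : ℝ → ℂ) {Y : ℝ} (hY : 0 < Y) :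
    ∫ y in (1 : ℝ)..Real.exp Y, GF S p w Y (Real.log y) * y⁻¹ = Y * G1 S p w Y := by
  have h1 : ∫ y in (1 : ℝ)..Real.exp Y, GF S p w Y (Real.log y) * y⁻¹ =
      ∫ v in (Real.log 1)..(Real.log (Real.exp Y)), GF S p w Y v := by
    have hle : (1 : ℝ) ≤ Real.exp Y := Real.one_le_exp hY.le
    have h := intervalIntegral.integral_comp_mul_deriv (a := 1) (b := Real.exp Y) (f := Real.log)
      (f' := fun y => y⁻¹) (g := GF S p w Y) (fun y hy => by
        rw [uIcc_of_le hle] at hy
        exact Real.hasDerivAt_log (by linarith [hy.1]))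
      (by
        refine continuousOn_inv₀.mono fun y hy => ?_
        rw [uIcc_of_le hle] at hy
        have : 0 < y := by linarith [hy.1]
        simpa using this.ne') (GF_cont S p w Y)
    exact h
  rw [h1, Real.log_one, Real.log_exp]
  have h2 := intervalIntegral.mul_integral_comp_mul_left (a := 0) (b := 1) (f := GF S p w Y) Y
  rw [mul_zero, mul_one] at h2
  rw [← h2]
  congr 1
  unfold G1 GF
  refine intervalIntegral.integral_congr fun u _ => ?_
  rw [mul_div_cancel_left₀ u hY.ne']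
  push_cast
  rfl

end Pool.Agent.Q95.BD
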